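import Pool.Agent.helper37.MA.Spec

/-! Row CB2 of project MA (MP_7e34bc_co). -/

set_option autoImplicit false

namespace Pool.Agent.helper37.MA

open Finset Pool.Agent.NK Pool.Agent.helper37.NF

theorem CB2_rec (i : ℕ) :
    (i + 1) * (2 * (i + 1)).choose (i + 1) = 2 * (2 * i + 1) * (2 * i).choose i :=
  Nat.succ_mul_centralBinom_succ i

theorem CB2_up (i : ℕ) : ((2 * i).choose i) ^ 2 * (2 * i + 1) ≤ 16 ^ i := by
  induction i with
  | zero => simp
  | succ i ih =>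
    have h := CB2_rec i
    have hpos : 0 < (i + 1) ^ 2 := by positivity
    refine Nat.le_of_mul_le_mul_left ?_ hpos
    calc (i + 1) ^ 2 * (((2 * (i + 1)).choose (i + 1)) ^ 2 * (2 * (i + 1) + 1))
        = ((i + 1) * (2 * (i + 1)).choose (i + 1)) ^ 2 * (2 * i + 3) := by ring
      _ = (2 * (2 * i + 1) * (2 * i).choose i) ^ 2 * (2 * i + 3) := by rw [h]
      _ = 4 * (2 * i + 1) * (2 * i + 3) * (((2 * i).choose i) ^ 2 * (2 * i + 1)) := by ring
      _ ≤ 4 * (2 * i + 1) * (2 * i + 3) * 16 ^ i := Nat.mul_le_mul_left _ ih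
      _ ≤ (16 * (i + 1) ^ 2) * 16 ^ i := Nat.mul_le_mul_right _ (by nlinarith)
      _ = (i + 1) ^ 2 * 16 ^ (i + 1) := by ring

theorem CB2_lo (i : ℕ) (hi : 1 ≤ i) : 16 ^ i ≤ 4 * i * ((2 * i).choose i) ^ 2 := by
  induction i, hi using Nat.le_induction with
  | base => decide
  | succ i hi ih =>
    have h := CB2_rec i
    have hpos : 0 < (i + 1) ^ 2 := by positivity
    refine Nat.le_of_mul_le_mul_left ?_ hpos
    calc (i + 1) ^ 2 * 16 ^ (i + 1) = 16 * (i + 1) ^ 2 * 16 ^ i := by ring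
      _ ≤ 16 * (i + 1) ^ 2 * (4 * i * ((2 * i).choose i) ^ 2) := Nat.mul_le_mul_left _ ih
      _ = (16 * (i + 1) * ((2 * i).choose i) ^ 2) * (4 * i * (i + 1)) := by ring
      _ ≤ (16 * (i + 1) * ((2 * i).choose i) ^ 2) * (2 * i + 1) ^ 2 :=
          Nat.mul_le_mul_left _ (by nlinarith)
      _ = 4 * (i + 1) * (2 * (2 * i + 1) * (2 * i).choose i) ^ 2 := by ring
      _ = 4 * (i + 1) * ((i + 1) * (2 * (i + 1)).choose (i + 1)) ^ 2 := by rw [h]
      _ = (i + 1) ^ 2 * (4 * (i + 1) * ((2 * (i + 1)).choose (i + 1)) ^ 2) := by ring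

theorem CB2 : CB2_stmt := fun i => ⟨CB2_up i, CB2_lo i⟩

end Pool.Agent.helper37.MA
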